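import Pool.Agent.Helper468.Conf.F
import Pool.Agent.Helper468.Conf.G
import Pool.Agent.Helper468.Conf.P_reduce

set_option autoImplicit false
open Finset

namespace Pool.Agent.Results.MP_7483c9_co.LargeOrders

/-- For every `n ≥ 10^21`, `n ≡ 2 (mod 4)`, every binary code of length `n - 1` and minimum
distance at least `(n - 2)/2` has at most `2n` words, and if there is a symmetric conference
matrix of order `n` then `2n` words are attained: `A(n - 1, (n - 2)/2) = 2n`. -/
theorem result :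
    ∀ n : ℕ, 10 ^ 21 ≤ n → n % 4 = 2 →
      (∀ code : Finset (Fin (n - 1) → Bool),
          (∀ x ∈ code, ∀ y ∈ code, x ≠ y → (n - 2) / 2 ≤ hammingDist x y) →
          code.card ≤ 2 * n) ∧
      ((∃ C : Matrix (Fin n) (Fin n) ℤ,
        C.IsSymm ∧ (∀ i, C i i = 0) ∧
        (∀ i j, i ≠ j → C i j = 1 ∨ C i j = -1) ∧
        C * C.transpose = ((n : ℤ) - 1) • (1 : Matrix (Fin n) (Fin n) ℤ)) →
      ∃ code : Finset (Fin (n - 1) → Bool),
          (∀ x ∈ code, ∀ y ∈ code, x ≠ y → (n - 2) / 2 ≤ hammingDist x y) ∧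
          code.card = 2 * n) := by
  intro n hn h4
  refine ⟨?_, fun hC => ConfC.conf_code n (by omega) h4 hC⟩
  intro code hcode
  by_contra hcon
  push Not at hcon
  obtain ⟨k, rfl⟩ : ∃ k, n = 4 * k + 2 := ⟨n / 4, by omega⟩
  have e1 : 4 * k + 2 - 1 = 4 * k + 1 := by omega
  have e2 : (4 * k + 2 - 2) / 2 = 2 * k := by omega
  rw [e2] at hcode
  obtain ⟨X, hX⟩ := ConfC.reduce k code hcode (by omega)
  exact ConfC.main_upper k (by omega) X hX (by simp)

end Pool.Agent.Results.MP_7483c9_co.LargeOrders
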